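import Mathlib
import Pool.Agent.MP_2b113a_an.H83.Gauss

/-!
The relative entropy integrand, the chain rule for a density on a product, and stability of the
distance to the product of the marginals.
-/

namespace Pool.Agent.MP_2b113a_an.H92

open MeasureTheory ProbabilityTheory Filter Topology
open scoped ENNReal NNReal Real

/-- The relative entropy integrand. -/
noncomputable def Phi (x y : ℝ) : ℝ := x * Real.log (x / y) - x + y

/-- The relative entropy integrand on extended reals. -/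
noncomputable def Phie (x y : ℝ≥0∞) : ℝ≥0∞ := ENNReal.ofReal (Phi x.toReal y.toReal)

@[fun_prop] lemma measurable_Phie {α : Type*} [MeasurableSpace α] {f g : α → ℝ≥0∞}
    (hf : Measurable f) (hg : Measurable g) : Measurable fun z => Phie (f z) (g z) := by
  unfold Phie Phi; fun_prop

lemma fenchel {x y : ℝ} (hx : 0 ≤ x) (hy : 0 < y) (s : ℝ) :
    x * s - y * Real.exp s + y ≤ Phi x y := by
  rcases hx.eq_or_lt with rfl | hx
  · have := mul_pos hy (Real.exp_pos s)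
    simp only [Phi, zero_mul, zero_sub, sub_zero, zero_add]
    linarith
  have h := Real.log_le_sub_one_of_pos (x := y * Real.exp s / x) (by positivity)
  rw [Real.log_div (by positivity) hx.ne', Real.log_mul hy.ne' (Real.exp_pos s).ne',
    Real.log_exp] at h
  have h2 := mul_le_mul_of_nonneg_left h hx.le
  have h3 : x * (y * Real.exp s / x - 1) = y * Real.exp s - x := by field_simp
  rw [Phi, Real.log_div hx.ne' hy.ne']
  nlinarith

lemma Phi_nonneg {x y : ℝ} (hx : 0 ≤ x) (hy : 0 < y) : 0 ≤ Phi x y := by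
  simpa using fenchel hx hy 0

lemma Phie_mul (x y : ℝ≥0∞) {w : ℝ≥0∞} (h0 : w ≠ 0) (h1 : w ≠ ∞) :
    Phie (x * w) (y * w) = Phie x y * w := by
  have hw := ENNReal.toReal_pos h0 h1
  conv_rhs => rw [← ENNReal.ofReal_toReal h1]
  rw [Phie, Phie, ← ENNReal.ofReal_mul' hw.le, ENNReal.toReal_mul, ENNReal.toReal_mul, Phi, Phi,
    mul_div_mul_right _ _ hw.ne']
  congr 1; ring

lemma sub_le_Phie {x y : ℝ≥0∞} (hx : x ≠ ∞) (h0 : y ≠ 0) {η : ℝ≥0} (hη : η ≠ 0) (hη1 : η ≤ 1) :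
    x - y ≤ Phie x y * (η⁻¹ : ℝ≥0) + η * y := by
  by_cases h1 : y = ∞
  · simp [h1]
  have hy := ENNReal.toReal_pos h0 h1
  have hn := Phi_nonneg (ENNReal.toReal_nonneg (a := x)) hy
  have hf := fenchel (ENNReal.toReal_nonneg (a := x)) hy η
  have e0 : (0 : ℝ) < η := by positivity
  have e1 : (η : ℝ) ≤ 1 := hη1
  have e2 : Real.exp η ≤ 1 + η + η ^ 2 := by
    have := Real.abs_exp_sub_one_sub_id_le (x := (η : ℝ)) (by rw [abs_of_pos e0]; exact e1)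
    linarith [(abs_le.1 this).2]
  rw [tsub_le_iff_right, Phie]
  lift x to ℝ≥0 using hx
  lift y to ℝ≥0 using h1
  simp only [ENNReal.coe_toReal] at *
  rw [← ENNReal.coe_mul, ENNReal.ofReal, ← ENNReal.coe_mul, ← ENNReal.coe_add, ← ENNReal.coe_add,
    ENNReal.coe_le_coe, ← NNReal.coe_le_coe]
  push_cast
  rw [Real.coe_toNNReal _ hn]
  refine le_of_mul_le_mul_right ?_ e0
  have e3 : (Phi x y * (η : ℝ)⁻¹ + η * y + y) * η = Phi x y + η ^ 2 * y + y * η := by field_simp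
  rw [e3]
  nlinarith [mul_le_mul_of_nonneg_left e2 hy.le]

lemma Phie_le {p P : ℝ≥0∞} {t : ℝ} (ht : 0 ≤ t) (h : p ≤ ENNReal.ofReal (Real.exp t) * P) :
    Phie p P ≤ ENNReal.ofReal t * p + P := by
  by_cases h1 : P = ∞
  · simp [h1]
  have h2 : p ≠ ∞ := ne_top_of_le_ne_top (ENNReal.mul_ne_top ENNReal.ofReal_ne_top h1) h
  have h3 := ENNReal.toReal_mono (ENNReal.mul_ne_top ENNReal.ofReal_ne_top h1) h
  rw [ENNReal.toReal_mul, ENNReal.toReal_ofReal (Real.exp_pos t).le] at h3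
  conv_rhs => rw [← ENNReal.ofReal_toReal h1, ← ENNReal.ofReal_toReal h2]
  have a0 : 0 ≤ p.toReal := ENNReal.toReal_nonneg
  have b0 : 0 ≤ P.toReal := ENNReal.toReal_nonneg
  rw [← ENNReal.ofReal_mul ht, ← ENNReal.ofReal_add (by positivity) b0]
  refine ENNReal.ofReal_le_ofReal ?_
  generalize p.toReal = a at *
  generalize P.toReal = b at *
  rcases a0.eq_or_lt with rfl | a0
  · simp [Phi]
  have b1 : 0 < b := by
    rcases b0.eq_or_lt with rfl | b0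
    · simp at h3; linarith
    · exact b0
  have : Real.log (a / b) ≤ t := by
    rw [Real.log_le_iff_le_exp (by positivity), div_le_iff₀ b1]; exact h3
  rw [Phi]
  nlinarith

lemma Phie_chain {x p q P : ℝ≥0∞} (x0 : x ≠ 0) (x1 : x ≠ ∞) (p0 : p ≠ 0) (p1 : p ≠ ∞)
    (q0 : q ≠ 0) (q1 : q ≠ ∞) (P0 : P ≠ 0) (P1 : P ≠ ∞) :
    Phie x (p * q / P) + x * (p⁻¹ * Phie p P) + x + q =
      Phie x q + x * (p⁻¹ * P) + p * (q * P⁻¹) := by
  lift x to ℝ≥0 using x1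
  lift p to ℝ≥0 using p1
  lift q to ℝ≥0 using q1
  lift P to ℝ≥0 using P1
  have hx : (0 : ℝ) < x := by have : x ≠ 0 := by simpa using x0
                              positivity
  have hp' : p ≠ 0 := by simpa using p0
  have hP' : P ≠ 0 := by simpa using P0
  have hp : (0 : ℝ) < p := by positivity
  have hq : (0 : ℝ) < q := by have : q ≠ 0 := by simpa using q0
                              positivity
  have hP : (0 : ℝ) < P := by positivity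
  simp only [Phie, ENNReal.toReal_div, ENNReal.toReal_mul, ENNReal.coe_toReal, ENNReal.ofReal]
  rw [← ENNReal.coe_inv hp', ← ENNReal.coe_inv hP']
  norm_cast
  rw [← NNReal.coe_inj]
  push_cast
  rw [Real.coe_toNNReal _ (Phi_nonneg hx.le (by positivity)),
    Real.coe_toNNReal _ (Phi_nonneg hx.le hq), Real.coe_toNNReal _ (Phi_nonneg hp.le hP)]
  simp only [Phi]
  rw [Real.log_div hx.ne' (by positivity), Real.log_div (by positivity) hP.ne',
    Real.log_mul hp.ne' hq.ne', Real.log_div hx.ne' hq.ne', Real.log_div hp.ne' hP.ne']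
  field_simp
  ring

section Marginals

variable (γ₁ γ₂ : Measure ℝ) [IsProbabilityMeasure γ₁] [IsProbabilityMeasure γ₂]

/-- The first marginal density. -/
noncomputable def mp (x : ℝ × ℝ → ℝ≥0∞) (s : ℝ) : ℝ≥0∞ := ∫⁻ t, x (s, t) ∂γ₂

/-- The second marginal density. -/
noncomputable def mq (x : ℝ × ℝ → ℝ≥0∞) (t : ℝ) : ℝ≥0∞ := ∫⁻ s, x (s, t) ∂γ₁

/-- The total mass. -/
noncomputable def mP (x : ℝ × ℝ → ℝ≥0∞) : ℝ≥0∞ := ∫⁻ u, x u ∂γ₁.prod γ₂

/-- The distance to the product of the marginals. -/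
noncomputable def dA (x : ℝ × ℝ → ℝ≥0∞) : ℝ≥0∞ :=
  ∫⁻ u, x u - mp γ₂ x u.1 * mq γ₁ x u.2 / mP γ₁ γ₂ x ∂γ₁.prod γ₂

/-- The mutual information. -/
noncomputable def mI (x : ℝ × ℝ → ℝ≥0∞) : ℝ≥0∞ :=
  ∫⁻ u, Phie (x u) (mp γ₂ x u.1 * mq γ₁ x u.2 / mP γ₁ γ₂ x) ∂γ₁.prod γ₂

variable {x x' z : ℝ × ℝ → ℝ≥0∞}

lemma measurable_mp (hx : Measurable x) : Measurable (mp γ₂ x) := by unfold mp; fun_prop

lemma measurable_mq (hx : Measurable x) : Measurable (mq γ₁ x) := by unfold mq; fun_prop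

omit [IsProbabilityMeasure γ₁] in
lemma lintegral_mp (hx : Measurable x) : ∫⁻ s, mp γ₂ x s ∂γ₁ = mP γ₁ γ₂ x :=
  (lintegral_prod _ hx.aemeasurable).symm

lemma lintegral_mq (hx : Measurable x) : ∫⁻ t, mq γ₁ x t ∂γ₂ = mP γ₁ γ₂ x :=
  (lintegral_prod_symm _ hx.aemeasurable).symm

lemma lintegral_mp_mq (hx : Measurable x) (hz : Measurable z) (c : ℝ≥0∞) :
    ∫⁻ u : ℝ × ℝ, mp γ₂ x u.1 * (mq γ₁ z u.2 * c) ∂γ₁.prod γ₂ =
      mP γ₁ γ₂ x * (mP γ₁ γ₂ z * c) := by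
  have h1 := measurable_mp γ₂ hx
  have h2 := measurable_mq γ₁ hz
  rw [lintegral_prod_mul (f := mp γ₂ x) (g := fun t => mq γ₁ z t * c) (by fun_prop) (by fun_prop),
    lintegral_mul_const _ h2, lintegral_mp _ _ hx, lintegral_mq _ _ hz]

omit [IsProbabilityMeasure γ₁] in
lemma lintegral_mul_fst (hx : Measurable x) {g : ℝ → ℝ≥0∞} (hg : Measurable g) :
    ∫⁻ u, x u * g u.1 ∂γ₁.prod γ₂ = ∫⁻ s, mp γ₂ x s * g s ∂γ₁ := by
  rw [lintegral_prod _ (by fun_prop)]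
  exact lintegral_congr fun s => lintegral_mul_const (g s) (f := fun t => x (s, t)) (by fun_prop)

lemma lint_ne_zero {α : Type*} [MeasurableSpace α] (μ : Measure α) [NeZero μ] {f : α → ℝ≥0∞}
    (hf : Measurable f) (h : ∀ a, f a ≠ 0) : ∫⁻ a, f a ∂μ ≠ 0 := by
  rw [Ne, lintegral_eq_zero_iff hf]
  intro h0
  obtain ⟨a, ha⟩ := h0.exists
  exact h a ha

lemma ae_fin (hx : Measurable x) (h1 : mP γ₁ γ₂ x ≠ ∞) :
    ∀ᵐ u ∂γ₁.prod γ₂, x u ≠ ∞ ∧ mp γ₂ x u.1 ≠ ∞ ∧ mq γ₁ x u.2 ≠ ∞ := by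
  have a1 := ae_lt_top hx h1
  have a2 := ae_lt_top (measurable_mp γ₂ hx) ((lintegral_mp γ₁ γ₂ hx).symm ▸ h1)
  have a3 := ae_lt_top (measurable_mq γ₁ hx) ((lintegral_mq γ₁ γ₂ hx).symm ▸ h1)
  filter_upwards [a1, Measure.quasiMeasurePreserving_fst.ae a2,
    Measure.quasiMeasurePreserving_snd.ae a3] with u b1 b2 b3
  exact ⟨b1.ne, b2.ne, b3.ne⟩

lemma mul_mul_inv_le (a : ℝ≥0∞) : a * (a * a⁻¹) ≤ a :=
  (mul_le_mul_right (ENNReal.mul_inv_le_one a) a).trans (mul_one a).le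

/-- The chain rule. -/
lemma chain (hx : Measurable x) (h0 : ∀ u, x u ≠ 0) (h1 : mP γ₁ γ₂ x ≠ ∞) :
    mI γ₁ γ₂ x + ∫⁻ s, Phie (mp γ₂ x s) (mP γ₁ γ₂ x) ∂γ₁ ≤
      ∫⁻ u, Phie (x u) (mq γ₁ x u.2) ∂γ₁.prod γ₂ := by
  have m1 := measurable_mp γ₂ hx
  have m2 := measurable_mq γ₁ hx
  have p0 : ∀ s, mp γ₂ x s ≠ 0 := fun s => lint_ne_zero _ (by fun_prop) fun t => h0 _
  have q0 : ∀ t, mq γ₁ x t ≠ 0 := fun t => lint_ne_zero _ (by fun_prop) fun s => h0 _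
  have P0 : mP γ₁ γ₂ x ≠ 0 := lint_ne_zero _ hx h0
  have key := lintegral_congr_ae (μ := γ₁.prod γ₂) ((ae_fin γ₁ γ₂ hx h1).mono fun u hu =>
    Phie_chain (h0 u) hu.1 (p0 u.1) hu.2.1 (q0 u.2) hu.2.2 P0 h1)
  rw [lintegral_add_left (by fun_prop), lintegral_add_left (by fun_prop),
    lintegral_add_left (by fun_prop), lintegral_add_left (by fun_prop),
    lintegral_add_left (by fun_prop), lintegral_mp_mq _ _ hx hx,
    lintegral_mul_fst _ _ hx (g := fun s => (mp γ₂ x s)⁻¹ * Phie (mp γ₂ x s) (mP γ₁ γ₂ x))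
      (by fun_prop),
    lintegral_mul_fst _ _ hx (g := fun s => (mp γ₂ x s)⁻¹ * mP γ₁ γ₂ x) (by fun_prop)] at key
  have e1 : ∫⁻ u : ℝ × ℝ, mq γ₁ x u.2 ∂γ₁.prod γ₂ = mP γ₁ γ₂ x := by
    rw [lintegral_prod_symm _ (by fun_prop), ← lintegral_mq _ _ hx]; simp
  have e2 : ∫⁻ s, mp γ₂ x s * ((mp γ₂ x s)⁻¹ * Phie (mp γ₂ x s) (mP γ₁ γ₂ x)) ∂γ₁ =
      ∫⁻ s, Phie (mp γ₂ x s) (mP γ₁ γ₂ x) ∂γ₁ := by
    refine lintegral_congr_ae ?_
    filter_upwards [ae_lt_top m1 ((lintegral_mp γ₁ γ₂ hx).symm ▸ h1)] with s hs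
    rw [← mul_assoc, ENNReal.mul_inv_cancel (p0 s) hs.ne, one_mul]
  have e3 : ∫⁻ s, mp γ₂ x s * ((mp γ₂ x s)⁻¹ * mP γ₁ γ₂ x) ∂γ₁ ≤ mP γ₁ γ₂ x := by
    refine (lintegral_mono fun s => ?_).trans (le_of_eq (by simp : ∫⁻ _, mP γ₁ γ₂ x ∂γ₁ = _))
    rw [← mul_assoc]
    exact (mul_le_mul_left (ENNReal.mul_inv_le_one _) _).trans (one_mul _).le
  rw [e1, e2] at key
  refine (ENNReal.add_le_add_iff_right h1).1 ((ENNReal.add_le_add_iff_right h1).1 ?_)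
  exact key.le.trans (add_le_add (add_le_add le_rfl e3) (mul_mul_inv_le _))

omit [IsProbabilityMeasure γ₁] [IsProbabilityMeasure γ₂] in
lemma dA_le (x : ℝ × ℝ → ℝ≥0∞) : dA γ₁ γ₂ x ≤ mP γ₁ γ₂ x := lintegral_mono fun _ => tsub_le_self

/-- A form of Pinsker's inequality. -/
lemma dA_le_mI (hx : Measurable x) (h0 : ∀ u, x u ≠ 0) (h1 : mP γ₁ γ₂ x ≠ ∞) {η : ℝ≥0}
    (hη : η ≠ 0) (hη1 : η ≤ 1) :
    dA γ₁ γ₂ x - η * mP γ₁ γ₂ x ≤ mI γ₁ γ₂ x * (η⁻¹ : ℝ≥0) := by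
  have m1 := measurable_mp γ₂ hx
  have m2 := measurable_mq γ₁ hx
  have p0 : ∀ s, mp γ₂ x s ≠ 0 := fun s => lint_ne_zero _ (by fun_prop) fun t => h0 _
  have q0 : ∀ t, mq γ₁ x t ≠ 0 := fun t => lint_ne_zero _ (by fun_prop) fun s => h0 _
  rw [tsub_le_iff_right]
  refine (lintegral_mono_ae ((ae_fin γ₁ γ₂ hx h1).mono fun u hu => sub_le_Phie hu.1
    (ENNReal.div_ne_zero.2 ⟨mul_ne_zero (p0 _) (q0 _), h1⟩) hη hη1)).trans ?_
  rw [lintegral_add_left (by fun_prop), lintegral_mul_const _ (by fun_prop),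
    lintegral_const_mul _ (by fun_prop)]
  refine add_le_add le_rfl (mul_le_mul_right ?_ _)
  simp_rw [div_eq_mul_inv, mul_assoc]
  rw [lintegral_mp_mq _ _ hx hx]
  exact mul_mul_inv_le _

omit [IsProbabilityMeasure γ₁] [IsProbabilityMeasure γ₂] in
lemma mP_le (hx' : Measurable x') (h : ∀ u, x u ≤ x' u + z u) :
    mP γ₁ γ₂ x ≤ mP γ₁ γ₂ x' + mP γ₁ γ₂ z :=
  (lintegral_mono h).trans (lintegral_add_left hx' _).le

/-- Stability of the distance to the product of the marginals. -/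
lemma dA_stab (hx : Measurable x) (hx' : Measurable x') (hz : Measurable z)
    (h : ∀ u, x u ≤ x' u + z u) (h' : ∀ u, x' u ≤ x u + z u) (P0 : mP γ₁ γ₂ x ≠ 0)
    (P1 : mP γ₁ γ₂ x ≠ ∞) : dA γ₁ γ₂ x ≤ dA γ₁ γ₂ x' + 4 * mP γ₁ γ₂ z := by
  have m1 := measurable_mp γ₂ hx
  have m2 := measurable_mq γ₁ hx
  have m3 := measurable_mp γ₂ hx'
  have m4 := measurable_mq γ₁ hx'
  have m5 := measurable_mp γ₂ hz
  have m6 := measurable_mq γ₁ hz
  have hp : ∀ s, mp γ₂ x' s ≤ mp γ₂ x s + mp γ₂ z s := fun s =>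
    (lintegral_mono fun t => h' _).trans (lintegral_add_left (by fun_prop) _).le
  have hq : ∀ t, mq γ₁ x' t ≤ mq γ₁ x t + mq γ₁ z t := fun t =>
    (lintegral_mono fun s => h' _).trans (lintegral_add_left (by fun_prop) _).le
  have hP := mP_le γ₁ γ₂ hx' h
  set P := mP γ₁ γ₂ x with hPd
  set P' := mP γ₁ γ₂ x' with hPd'
  set Z := mP γ₁ γ₂ z with hZd
  have hi : P'⁻¹ ≤ P⁻¹ + P'⁻¹ * P⁻¹ * Z :=
    calc P'⁻¹ = P'⁻¹ * P⁻¹ * P := by rw [mul_assoc, ENNReal.inv_mul_cancel P0 P1, mul_one]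
      _ ≤ P'⁻¹ * P⁻¹ * (P' + Z) := mul_le_mul_right hP _
      _ = P⁻¹ * (P' * P'⁻¹) + P'⁻¹ * P⁻¹ * Z := by ring
      _ ≤ P⁻¹ * 1 + _ := add_le_add (mul_le_mul_right (ENNReal.mul_inv_le_one _) _) le_rfl
      _ = _ := by rw [mul_one]
  have pt : ∀ u : ℝ × ℝ, x u - mp γ₂ x u.1 * mq γ₁ x u.2 / P ≤
      (x' u - mp γ₂ x' u.1 * mq γ₁ x' u.2 / P') + (z u + mp γ₂ z u.1 * (mq γ₁ x' u.2 * P'⁻¹) +
        mp γ₂ x u.1 * (mq γ₁ x' u.2 * (P'⁻¹ * P⁻¹ * Z)) + mp γ₂ x u.1 * (mq γ₁ z u.2 * P⁻¹)) :=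
    fun u => by
      rw [tsub_le_iff_right]
      have a1 := hp u.1
      have a2 := hq u.2
      have a3 : x' u ≤ (x' u - mp γ₂ x' u.1 * mq γ₁ x' u.2 / P') +
          mp γ₂ x' u.1 * mq γ₁ x' u.2 / P' := le_tsub_add
      generalize x' u - mp γ₂ x' u.1 * mq γ₁ x' u.2 / P' = d at a3 ⊢
      generalize mp γ₂ x u.1 = p at *
      generalize mp γ₂ x' u.1 = p' at *
      generalize mp γ₂ z u.1 = pz at *
      generalize mq γ₁ x u.2 = q at *
      generalize mq γ₁ x' u.2 = q' at *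
      generalize mq γ₁ z u.2 = qz at *
      simp only [div_eq_mul_inv] at *
      calc x u ≤ d + p' * q' * P'⁻¹ + z u := (h u).trans (add_le_add a3 le_rfl)
        _ ≤ d + (p + pz) * q' * P'⁻¹ + z u := by gcongr
        _ = d + (p * q' * P'⁻¹ + pz * q' * P'⁻¹) + z u := by ring
        _ ≤ d + (p * q' * (P⁻¹ + P'⁻¹ * P⁻¹ * Z) + pz * q' * P'⁻¹) + z u := by gcongr
        _ = d + (p * q' * P⁻¹ + p * q' * (P'⁻¹ * P⁻¹ * Z) + pz * q' * P'⁻¹) + z u := by ring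
        _ ≤ d + (p * (q + qz) * P⁻¹ + p * q' * (P'⁻¹ * P⁻¹ * Z) + pz * q' * P'⁻¹) + z u := by
          gcongr
        _ = _ := by ring
  refine (lintegral_mono pt).trans ?_
  rw [lintegral_add_left (by fun_prop), lintegral_add_left (by fun_prop),
    lintegral_add_left (by fun_prop), lintegral_add_left (by fun_prop), lintegral_mp_mq _ _ hz hx',
    lintegral_mp_mq _ _ hx hx', lintegral_mp_mq _ _ hx hz]
  refine add_le_add le_rfl ?_
  have b1 := ENNReal.mul_inv_le_one P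
  have b2 := ENNReal.mul_inv_le_one P'
  calc Z + Z * (P' * P'⁻¹) + P * (P' * (P'⁻¹ * P⁻¹ * Z)) + P * (Z * P⁻¹)
      = Z + Z * (P' * P'⁻¹) + (P * P⁻¹) * (P' * P'⁻¹) * Z + (P * P⁻¹) * Z := by ring
    _ ≤ Z + Z * 1 + 1 * 1 * Z + 1 * Z := by gcongr
    _ = 4 * Z := by ring

end Marginals

lemma gauss_shift {a a' : ℝ≥0} (ha : a ≠ 0) (h : a < a') {r : ℝ} (hr : (a' : ℝ) ≤ r * a) (u : ℝ)
    {f : ℝ → ℝ≥0∞} (hf : Measurable f) :
    ∫⁻ z, f (z + u) ∂gaussianReal 0 a ≤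
      ENNReal.ofReal (Real.exp (r + u ^ 2 / (a' - a))) * ∫⁻ z, f z ∂gaussianReal 0 a' := by
  have ha' : a' ≠ 0 := (zero_le.trans_lt h).ne'
  have a0 : (0 : ℝ) < a := by positivity
  have a1 : (a : ℝ) < a' := h
  have a2 : (0 : ℝ) < a' := a0.trans a1
  have a3 : (0 : ℝ) < a' - a := sub_pos.2 a1
  rw [← lintegral_map hf (measurable_add_const u), gaussianReal_map_add_const, zero_add,
    gaussianReal_of_var_ne_zero _ ha, gaussianReal_of_var_ne_zero _ ha',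
    lintegral_withDensity_eq_lintegral_mul _ (by fun_prop) hf,
    lintegral_withDensity_eq_lintegral_mul _ (by fun_prop) hf,
    ← lintegral_const_mul' _ _ ENNReal.ofReal_ne_top]
  refine lintegral_mono fun z => ?_
  simp only [Pi.mul_apply]
  rw [← mul_assoc]
  refine mul_le_mul_left ?_ _
  rw [gaussianPDF, gaussianPDF, ← ENNReal.ofReal_mul (Real.exp_pos _).le]
  refine ENNReal.ofReal_le_ofReal ?_
  simp only [gaussianPDFReal]
  have h1 : (√(2 * π * a))⁻¹ ≤ Real.exp r * (√(2 * π * a'))⁻¹ := by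
    have r1 : 1 ≤ r := by nlinarith
    have r2 : r ≤ Real.exp r ^ 2 := by nlinarith [Real.add_one_le_exp r]
    rw [← div_eq_mul_inv, le_div_iff₀ (by positivity), inv_mul_le_iff₀ (by positivity),
      ← Real.sqrt_sq (Real.exp_pos r).le, ← Real.sqrt_mul (by positivity)]
    refine Real.sqrt_le_sqrt ?_
    have := Real.pi_pos
    have := mul_le_mul_of_nonneg_right r2 a0.le
    nlinarith
  have h2 : -(z - u) ^ 2 / (2 * a) ≤ u ^ 2 / (a' - a) + -(z - 0) ^ 2 / (2 * a') := by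
    have h3 : z ^ 2 / a' ≤ (z - u) ^ 2 / a + u ^ 2 / (a' - a) := by
      rw [div_add_div _ _ a0.ne' a3.ne', div_le_div_iff₀ a2 (by positivity)]
      nlinarith [sq_nonneg ((z - u) * (a' - a) - u * a)]
    have h4 : 0 ≤ u ^ 2 / (a' - a) := by positivity
    have e1 : -(z - u) ^ 2 / (2 * a) = -((z - u) ^ 2 / a) / 2 := by field_simp
    have e2 : -(z - 0) ^ 2 / (2 * a') = -(z ^ 2 / a') / 2 := by field_simp; ring
    rw [e1, e2]
    linarith
  calc _ ≤ (Real.exp r * (√(2 * π * a'))⁻¹) *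
        Real.exp (u ^ 2 / (a' - a) + -(z - 0) ^ 2 / (2 * a')) :=
        mul_le_mul h1 (Real.exp_le_exp.2 h2) (Real.exp_pos _).le (by positivity)
    _ = _ := by rw [Real.exp_add, Real.exp_add]; ring

end Pool.Agent.MP_2b113a_an.H92
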