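import Mathlib
import Pool.Agent.MP_2b113a_an.H83.Dir
import Pool.Agent.MP_2b113a_an.H83.Iface
import Pool.Agent.MP_2b113a_an.H92.EntA

/-!
Entropy along the orbits of a nonsingular flow: chain rule, bound and telescoping.
-/

namespace Pool.Agent.MP_2b113a_an.H92

open MeasureTheory ProbabilityTheory Filter Topology Pool.Agent.MP_2b113a_an.H83
open scoped ENNReal NNReal Real

variable {Ω : Type} [MeasurableSpace Ω] {M : Measure Ω} (F : NSFlow Ω M)

/-- The Gaussian increment from variance `a` to variance `a'`. -/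
noncomputable abbrev gs (a a' : ℝ≥0) : Measure ℝ := gaussianReal 0 (a' - a)

lemma mp_tl {X : Ω → ℝ≥0∞} (hX : Measurable X) (a : ℝ≥0) {b b' : ℝ≥0} (hb : b ≤ b') (y : Ω)
    (s : ℝ) : mp (gs b b') (F.tl (F.cv X (N2 a b)) y) s = F.tl (F.cv X (N2 a b')) y (s, 0) := by
  have := F.cv_cv hX a b 0 (b' - b)
  rw [add_zero, add_tsub_cancel_of_le hb] at this
  rw [← this, F.tl_cv, lintegral_N2_right _ (by fun_prop), mp]
  simp

lemma mq_tl {X : Ω → ℝ≥0∞} (hX : Measurable X) {a a' : ℝ≥0} (ha : a ≤ a') (b : ℝ≥0) (y : Ω)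
    (t : ℝ) : mq (gs a a') (F.tl (F.cv X (N2 a b)) y) t = F.tl (F.cv X (N2 a' b)) y (0, t) := by
  have := F.cv_cv hX a b (a' - a) 0
  rw [add_zero, add_tsub_cancel_of_le ha] at this
  rw [← this, F.tl_cv, lintegral_N2_left _ (by fun_prop), mq]
  simp

lemma mP_tl' (X : Ω → ℝ≥0∞) (a a' b b' : ℝ≥0) (y : Ω) :
    mP (gs a a') (gs b b') (F.tl X y) = F.cv X (N2 (a' - a) (b' - b)) y := rfl

lemma mP_tl {X : Ω → ℝ≥0∞} (hX : Measurable X) {a a' b b' : ℝ≥0} (ha : a ≤ a') (hb : b ≤ b')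
    (y : Ω) : mP (gs a a') (gs b b') (F.tl (F.cv X (N2 a b)) y) = F.cv X (N2 a' b') y := by
  rw [mP_tl', F.cv_cv hX, add_tsub_cancel_of_le ha, add_tsub_cancel_of_le hb]

lemma dep_eq {X : Ω → ℝ≥0∞} (hX : Measurable X) {a a' b b' : ℝ≥0} (ha : a ≤ a') (hb : b ≤ b')
    (y : Ω) : F.dep X a a' b b' y = dA (gs a a') (gs b b') (F.tl (F.cv X (N2 a b)) y) := by
  simp only [dA, mp_tl F hX a hb, mq_tl F hX ha, mP_tl F hX ha hb]
  rfl

@[fun_prop] lemma measurable_hh (a b : ℝ≥0) : Measurable (F.hh a b) :=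
  F.measurable_cv measurable_const _

lemma measurable_dep {X : Ω → ℝ≥0∞} (hX : Measurable X) (a a' b b' : ℝ≥0) :
    Measurable (F.dep X a a' b b') := by
  unfold NSFlow.dep; fun_prop

lemma tl_hh_ne_zero (a b : ℝ≥0) (y : Ω) (u : ℝ × ℝ) : F.tl (F.hh a b) y u ≠ 0 :=
  mul_ne_zero (F.cv_one_ne_zero _ _) (F.W_ne_zero _ _)

/-- The information on the first displacement, at a base point. -/
noncomputable def GA (a a' b : ℝ≥0) (y : Ω) : ℝ≥0∞ :=
  ∫⁻ s, Phie (F.tl (F.hh a b) y (s, 0)) (F.hh a' b y) ∂gs a a'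

lemma measurable_GA (a a' b : ℝ≥0) : Measurable (GA F a a' b) := by unfold GA; fun_prop

/-- The mutual information of the two displacements, at a base point. -/
noncomputable def GD (a a' b b' : ℝ≥0) (y : Ω) : ℝ≥0∞ :=
  mI (gs a a') (gs b b') (F.tl (F.hh a b) y)

lemma measurable_GD (a a' b b' : ℝ≥0) : Measurable (GD F a a' b b') := by
  unfold GD mI mp mq mP; fun_prop

lemma tl_hh_le {a a' : ℝ≥0} (ha : a ≠ 0) (h : a < a') {r : ℝ} (hr : (a' : ℝ) ≤ r * a) (b : ℝ≥0)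
    (y : Ω) (s : ℝ) : F.tl (F.hh a b) y (s, 0) ≤
      ENNReal.ofReal (Real.exp (r + s ^ 2 / (a' - a))) * F.hh a' b y := by
  rw [NSFlow.hh, F.tl_cv, NSFlow.hh, NSFlow.cv, N2, N2, lintegral_prod_symm _ (by fun_prop),
    lintegral_prod_symm _ (by fun_prop), ← lintegral_const_mul' _ _ ENNReal.ofReal_ne_top]
  refine lintegral_mono fun t => ?_
  have := gauss_shift ha h hr s (f := fun z => F.tl (fun _ => 1) y (z, t)) (by fun_prop)
  simpa using this

variable [IsProbabilityMeasure M]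

lemma lintegral_hh (a b : ℝ≥0) : ∫⁻ y, F.hh a b y ∂M = 1 := by
  rw [NSFlow.hh, F.lintegral_cv_prob measurable_const]; simp

lemma hh_lt_top (a b : ℝ≥0) : ∀ᵐ y ∂M, F.hh a b y < ∞ :=
  ae_lt_top (by fun_prop) (by rw [lintegral_hh]; simp)

lemma GA_le {a a' : ℝ≥0} (ha : a ≠ 0) (h : a < a') {r : ℝ≥0} (hr : a' ≤ r * a) (b : ℝ≥0) :
    ∫⁻ y, GA F a a' b y ∂M ≤ (r + 2 : ℝ≥0) := by
  have a3 : (0 : ℝ) < a' - a := sub_pos.2 h
  have e : ∫⁻ s, ENNReal.ofReal (r + s ^ 2 / (a' - a)) ∂gs a a' = r + 1 := by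
    have e1 : ∀ s : ℝ, ENNReal.ofReal (r + s ^ 2 / (a' - a)) =
        r + ENNReal.ofReal ((s - 0) ^ 2) * ((a' - a : ℝ≥0) : ℝ≥0∞)⁻¹ := fun s => by
      rw [ENNReal.ofReal_add r.coe_nonneg (by positivity), ENNReal.ofReal_div_of_pos a3,
        ← NNReal.coe_sub h.le, ENNReal.ofReal_coe_nnreal, ENNReal.ofReal_coe_nnreal, sub_zero,
        div_eq_mul_inv]
    simp_rw [e1]
    rw [lintegral_add_left measurable_const, lintegral_mul_const _ (by fun_prop),
      lintegral_sq_gauss, ENNReal.mul_inv_cancel (by simpa [tsub_eq_zero_iff_le] using h)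
        ENNReal.coe_ne_top]
    simp
  unfold GA
  rw [lintegral_lintegral_swap (by fun_prop)]
  calc _ ≤ ∫⁻ s, ∫⁻ y, ENNReal.ofReal (r + s ^ 2 / (a' - a)) * F.tl (F.hh a b) y (s, 0) +
        F.hh a' b y ∂M ∂gs a a' :=
        lintegral_mono fun s => lintegral_mono fun y =>
          Phie_le (by positivity) (tl_hh_le F ha h (by exact_mod_cast hr) b y s)
    _ = ∫⁻ s, ENNReal.ofReal (r + s ^ 2 / (a' - a)) + 1 ∂gs a a' := by
        refine lintegral_congr fun s => ?_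
        rw [lintegral_add_left (by fun_prop), lintegral_const_mul _ (by fun_prop),
          F.lintegral_tl (by fun_prop), lintegral_hh, lintegral_hh, mul_one]
    _ = _ := by
        rw [lintegral_add_right _ measurable_const, e]
        simp [add_assoc, one_add_one_eq_two]

lemma GD_chain {a a' b b' : ℝ≥0} (ha : a ≤ a') (hb : b ≤ b') :
    ∫⁻ y, GD F a a' b b' y ∂M + ∫⁻ y, GA F a a' b' y ∂M ≤ ∫⁻ y, GA F a a' b y ∂M := by
  rw [← lintegral_add_left (measurable_GD F a a' b b')]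
  have h1 : ∀ᵐ y ∂M, GD F a a' b b' y + GA F a a' b' y ≤
      ∫⁻ t, GA F a a' b (F.τ (0, t) y) * F.W (0, t) y ∂gs b b' := by
    filter_upwards [hh_lt_top F a' b'] with y hy
    have e := mP_tl F (X := fun _ => 1) measurable_const ha hb y
    have := chain (gs a a') (gs b b') (x := F.tl (F.hh a b) y) (by fun_prop)
      (tl_hh_ne_zero F a b y) (e ▸ hy.ne)
    simp only [NSFlow.hh, e, mp_tl F measurable_const a hb, mq_tl F measurable_const ha] at this
    refine this.trans (le_of_eq ?_)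
    rw [lintegral_prod_symm _ (by fun_prop)]
    refine lintegral_congr fun t => ?_
    rw [GA, ← lintegral_mul_const' _ _ (F.W_ne_top _ _)]
    refine lintegral_congr fun s => ?_
    rw [← Phie_mul _ _ (F.W_ne_zero _ _) (F.W_ne_top _ _), F.tl_τ]
    simp [NSFlow.hh, NSFlow.tl]
  refine (lintegral_mono_ae h1).trans (le_of_eq ?_)
  have m := measurable_GA F a a' b
  rw [lintegral_lintegral_swap (by fun_prop)]
  simp [F.inv _ _ m]

lemma telescope {α D : ℕ → ℝ≥0∞} {B : ℝ≥0} {K : ℕ} (h1 : ∀ j, α j ≤ B)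
    (h2 : ∀ j, D j + α (K + j) ≤ α j) (R : ℕ) : ∑ j ∈ Finset.range R, D j ≤ K * B := by
  have fin : ∑ j ∈ Finset.range R, α (K + j) ≠ ∞ :=
    ENNReal.sum_ne_top.2 fun j _ => ne_top_of_le_ne_top ENNReal.coe_ne_top (h1 _)
  refine (ENNReal.add_le_add_iff_right fin).1 ?_
  calc _ = ∑ j ∈ Finset.range R, (D j + α (K + j)) := Finset.sum_add_distrib.symm
    _ ≤ ∑ j ∈ Finset.range R, α j := Finset.sum_le_sum fun j _ => h2 j
    _ ≤ ∑ j ∈ Finset.range (K + R), α j :=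
        Finset.sum_le_sum_of_subset (Finset.range_mono (Nat.le_add_left _ _))
    _ = ∑ j ∈ Finset.range K, α j + _ := Finset.sum_range_add _ _ _
    _ ≤ _ := by
        refine add_le_add ?_ le_rfl
        simpa using Finset.sum_le_card_nsmul (Finset.range K) α B fun j _ => h1 j

lemma reindex {D : ℕ → ℕ → ℝ≥0∞} {B : ℝ≥0∞} (h : ∀ i R, ∑ j ∈ Finset.range R, D i j ≤ B)
    {n N T₀ : ℕ} (hN : N ≤ T₀) :
    ∑ T ∈ Finset.range n, ∑ c ∈ Finset.range N, D (T₀ + T + c) (T₀ + T - c) ≤ (n + N) * B := by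
  let φ : ℕ × ℕ → ℕ × ℕ := fun x => (x.1 + x.2, T₀ + x.1 - x.2)
  let g : ℕ × ℕ → ℝ≥0∞ := fun x => D (T₀ + x.1) x.2
  have hi : Set.InjOn φ (Finset.range n ×ˢ Finset.range N : Finset (ℕ × ℕ)) := by
    rintro ⟨a, b⟩ h1 ⟨c, d⟩ h2 e
    simp only [Finset.coe_product, Finset.coe_range, Set.mem_prod, Set.mem_Iio, φ,
      Prod.mk.injEq] at h1 h2 e ⊢
    omega
  calc _ = ∑ x ∈ Finset.range n ×ˢ Finset.range N, g (φ x) := by
        rw [Finset.sum_product]
        simp only [g, φ, add_assoc]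
    _ = ∑ x ∈ (Finset.range n ×ˢ Finset.range N).image φ, g x := (Finset.sum_image hi).symm
    _ ≤ ∑ x ∈ Finset.range (n + N) ×ˢ Finset.range (T₀ + n), g x := by
        refine Finset.sum_le_sum_of_subset fun x hx => ?_
        simp only [Finset.mem_image, Finset.mem_product, Finset.mem_range, φ] at hx ⊢
        obtain ⟨y, hy, rfl⟩ := hx
        dsimp only
        omega
    _ ≤ _ := by
        rw [Finset.sum_product]
        simpa using Finset.sum_le_card_nsmul (Finset.range (n + N))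
          (fun i => ∑ j ∈ Finset.range (T₀ + n), g (i, j)) B fun i _ => h (T₀ + i) (T₀ + n)

lemma GD_sum {κ : ℝ≥0} (hκ : 1 < κ) {K : ℕ} (hK : K ≠ 0) {n N T₀ : ℕ} (hN : N ≤ T₀) :
    ∑ T ∈ Finset.range n, ∑ c ∈ Finset.range N, ∫⁻ y, GD F (κ ^ (T₀ + T + c))
      (κ ^ (T₀ + T + c + K)) (κ ^ (T₀ + T - c)) (κ ^ (T₀ + T - c + K)) y ∂M ≤
        (n + N) * (K * (κ ^ K + 2 : ℝ≥0)) := by
  refine reindex (D := fun i j => ∫⁻ y, GD F (κ ^ i) (κ ^ (i + K)) (κ ^ j) (κ ^ (j + K)) y ∂M)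
    (fun i R => ?_) hN
  refine telescope (α := fun j => ∫⁻ y, GA F (κ ^ i) (κ ^ (i + K)) (κ ^ j) y ∂M)
    (fun j => ?_) (fun j => ?_) R
  · exact GA_le F (pow_ne_zero _ (zero_lt_one.trans hκ).ne') (pow_lt_pow_right₀ hκ (by omega))
      (by rw [pow_add, mul_comm]) _
  · rw [add_comm K j]
    exact GD_chain F (pow_le_pow_right₀ hκ.le (by omega)) (pow_le_pow_right₀ hκ.le (by omega))

end Pool.Agent.MP_2b113a_an.H92
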