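import Mathlib
import Pool.Agent.MP_2b113a_an.H92.EntB

/-!
The posterior laws of the displacement are almost products, in the Cesaro sense.
-/

namespace Pool.Agent.MP_2b113a_an.H92

open MeasureTheory ProbabilityTheory Filter Topology Pool.Agent.MP_2b113a_an.H83
open scoped ENNReal NNReal Real

variable {Ω : Type} [MeasurableSpace Ω] {M : Measure Ω} (F : NSFlow Ω M)

lemma homog {w : ℝ≥0∞} (h0 : w ≠ 0) (h1 : w ≠ ∞) (x p q P : ℝ≥0∞) :
    w * x - w * p * (w * q) / (w * P) = w * (x - p * q / P) := by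
  rw [ENNReal.mul_sub fun _ _ => h1, mul_assoc, ENNReal.mul_div_mul_left _ _ h0 h1, mul_left_comm,
    mul_div_assoc]

lemma homog' {w : ℝ≥0∞} (h1 : w ≠ ∞) (x e P : ℝ≥0∞) :
    w * x - e * (w * P) = (x - e * P) * w := by
  rw [mul_comm _ w, ENNReal.mul_sub fun _ _ => h1, mul_left_comm]

/-- The excess of the dependence over a fraction of the mass. -/
noncomputable def ex (η : ℝ≥0) (X : Ω → ℝ≥0∞) (a a' b b' : ℝ≥0) (y : Ω) : ℝ≥0∞ :=
  F.dep X a a' b b' y - η * F.cv X (N2 a' b') y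

lemma measurable_ex (η : ℝ≥0) {X : Ω → ℝ≥0∞} (hX : Measurable X) (a a' b b' : ℝ≥0) :
    Measurable (ex F η X a a' b b') := by
  have := measurable_dep F hX a a' b b'
  unfold ex; fun_prop

lemma ex_inv (η : ℝ≥0) {s : Ω → ℝ≥0∞} (hs : F.Inv s) (h0 : ∀ y, s y ≠ 0) (h1 : ∀ y, s y ≠ ∞)
    (a a' b b' : ℝ≥0) (y : Ω) :
    ex F η s a a' b b' y = ex F η (fun _ => 1) a a' b b' y * s y := by
  have e : ∀ μ, F.cv s μ = fun y => s y * F.cv (fun _ => 1) μ y := fun μ => funext (F.cv_inv hs μ)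
  simp only [ex, NSFlow.dep, e, F.tl_inv_mul hs, homog (h0 y) (h1 y)]
  rw [lintegral_const_mul' _ _ (h1 y), homog' (h1 y)]

lemma dg_add (l : ℝ) (k : ℕ) (p q : ℝ × ℝ) : dg l k (p + q) = dg l k p + dg l k q := by
  simp [dg, mul_add]

lemma lintegral_N2_dg (l : ℝ) (k : ℕ) (a b : ℝ≥0) {f : ℝ × ℝ → ℝ≥0∞} (hf : Measurable f) :
    ∫⁻ u, f u ∂N2 (kap (l ^ k) * a) (kap (l ^ k)⁻¹ * b) = ∫⁻ u, f (dg l k u) ∂N2 a b := by
  rw [kap, kap, ← N2_map_scale, lintegral_map hf (by fun_prop)]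
  rfl

variable {F} in
lemma tl_cv_ρ {l : ℝ} {k : ℕ} (Y : Sym F (dg l k)) (a b : ℝ≥0) (y : Ω) (u : ℝ × ℝ) :
    F.tl (F.cv Y.ρ (N2 a b)) y u = Y.ρ y *
      F.tl (F.cv (fun _ => 1) (N2 (kap (l ^ k) * a) (kap (l ^ k)⁻¹ * b))) (Y.S y) (dg l k u) := by
  rw [F.tl_cv, F.tl_cv, lintegral_N2_dg _ _ _ _ (by fun_prop),
    ← lintegral_const_mul' _ _ (Y.ρ_ne_top y)]
  refine lintegral_congr fun q => ?_
  rw [Y.tl_ρ, F.tl_one, dg_add, mul_comm]

variable {F} in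
lemma ex_ρ (η : ℝ≥0) {l : ℝ} {k : ℕ} (Y : Sym F (dg l k)) (a a' b b' : ℝ≥0) (y : Ω) :
    ex F η Y.ρ a a' b b' y = ex F η (fun _ => 1) (kap (l ^ k) * a) (kap (l ^ k) * a')
      (kap (l ^ k)⁻¹ * b) (kap (l ^ k)⁻¹ * b') (Y.S y) * Y.ρ y := by
  have e : F.cv Y.ρ (N2 a' b') y =
      Y.ρ y * F.cv (fun _ => 1) (N2 (kap (l ^ k) * a') (kap (l ^ k)⁻¹ * b')) (Y.S y) := by
    have := tl_cv_ρ Y a' b' y 0
    rwa [show dg l k 0 = 0 by simp [dg], F.tl_zero, F.tl_zero] at this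
  simp only [ex, NSFlow.dep, e, tl_cv_ρ Y, homog (Y.ρ_ne_zero y) (Y.ρ_ne_top y)]
  rw [lintegral_const_mul' _ _ (Y.ρ_ne_top y), homog' (Y.ρ_ne_top y), ← mul_tsub, ← mul_tsub,
    lintegral_N2_dg _ _ _ _ (by fun_prop)]
  simp [dg]

lemma kap_pow (l : ℝ) (k : ℕ) : kap (l ^ k) = kap l ^ k := by
  ext; simp [kap, ← pow_mul, mul_comm]

lemma kap_inv (l : ℝ) : kap l⁻¹ = (kap l)⁻¹ := by
  ext; simp [kap]

lemma one_lt_kap {l : ℝ} (hl : 2 ≤ l) : 1 < kap l := by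
  rw [← NNReal.coe_lt_coe]
  simp only [kap, NNReal.coe_one, NNReal.coe_mk]
  nlinarith

variable [IsProbabilityMeasure M]

lemma ex_one_le {η : ℝ≥0} (hη : η ≠ 0) (hη1 : η ≤ 1) {a a' b b' : ℝ≥0} (ha : a ≤ a')
    (hb : b ≤ b') : ∫⁻ y, ex F η (fun _ => 1) a a' b b' y ∂M ≤
      (∫⁻ y, GD F a a' b b' y ∂M) * (η⁻¹ : ℝ≥0) := by
  rw [← lintegral_mul_const _ (measurable_GD F a a' b b')]
  refine lintegral_mono_ae ?_
  filter_upwards [hh_lt_top F a' b'] with y hy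
  have e := mP_tl F (X := fun _ => 1) measurable_const ha hb y
  rw [ex, dep_eq F measurable_const ha hb, ← e]
  exact dA_le_mI _ _ (by fun_prop) (tl_hh_ne_zero F a b y) (e ▸ hy.ne) hη hη1

lemma ex_stab {η : ℝ≥0} (hη1 : η ≤ 1) {X X' : Ω → ℝ≥0∞} (hX : Measurable X)
    (hX' : Measurable X') {a a' b b' : ℝ≥0} (ha : a ≤ a') (hb : b ≤ b')
    (h0 : ∀ y, F.cv X (N2 a' b') y ≠ 0) (h1 : ∫⁻ y, X y ∂M ≠ ∞) :
    ∫⁻ y, ex F η X a a' b b' y ∂M ≤ ∫⁻ y, ex F η X' a a' b b' y ∂M +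
      5 * (∫⁻ y, F.cv X (N2 a b) y - F.cv X' (N2 a b) y ∂M +
        ∫⁻ y, F.cv X' (N2 a b) y - F.cv X (N2 a b) y ∂M) := by
  let Z : Ω → ℝ≥0∞ := fun y =>
    (F.cv X (N2 a b) y - F.cv X' (N2 a b) y) + (F.cv X' (N2 a b) y - F.cv X (N2 a b) y)
  have hZ : Measurable Z := by fun_prop
  have z1 : ∀ y u, F.tl (F.cv X (N2 a b)) y u ≤ F.tl (F.cv X' (N2 a b)) y u + F.tl Z y u :=
    fun y u => by
      rw [← F.tl_add]
      exact F.tl_mono (fun y => le_add_tsub.trans (add_le_add le_rfl le_self_add)) y u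
  have z2 : ∀ y u, F.tl (F.cv X' (N2 a b)) y u ≤ F.tl (F.cv X (N2 a b)) y u + F.tl Z y u :=
    fun y u => by
      rw [← F.tl_add]
      exact F.tl_mono (fun y => le_add_tsub.trans (add_le_add le_rfl le_add_self)) y u
  rw [← lintegral_add_left (by fun_prop),
    ← F.lintegral_cv_prob hZ (N2 (a' - a) (b' - b)), ← lintegral_const_mul _ (by fun_prop),
    ← lintegral_add_left (measurable_ex F η hX' a a' b b')]
  refine lintegral_mono_ae ?_
  filter_upwards [ae_lt_top (F.measurable_cv hX (N2 a' b'))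
    (by rwa [F.lintegral_cv_prob hX])] with y hy
  have e := mP_tl F hX ha hb y
  have e' := mP_tl F hX' ha hb y
  have k1 := dA_stab (gs a a') (gs b b') (by fun_prop) (by fun_prop) (by fun_prop) (z1 y) (z2 y)
    (e ▸ h0 y) (e ▸ hy.ne)
  have k2 := mP_le (gs a a') (gs b b') (by fun_prop) (z2 y)
  rw [← dep_eq F hX ha hb, ← dep_eq F hX' ha hb, mP_tl'] at k1
  rw [e, e', mP_tl'] at k2
  have k3 : (η : ℝ≥0∞) ≤ 1 := by exact_mod_cast hη1
  rw [ex, ex, tsub_le_iff_right]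
  calc _ ≤ _ := k1
    _ ≤ (F.dep X' a a' b b' y - η * F.cv X' (N2 a' b') y + η * F.cv X' (N2 a' b') y) + _ :=
        add_le_add le_tsub_add le_rfl
    _ ≤ (F.dep X' a a' b b' y - η * F.cv X' (N2 a' b') y +
        (η * F.cv X (N2 a' b') y + 1 * F.cv Z (N2 (a' - a) (b' - b)) y)) + _ := by
        refine add_le_add (add_le_add le_rfl ((mul_le_mul_right k2 _).trans ?_)) le_rfl
        rw [mul_add]
        gcongr
    _ = _ := by ring

lemma setLIntegral_ex_le (η : ℝ≥0) {a a' b b' : ℝ≥0} (ha : a ≤ a') (hb : b ≤ b') {Z : Set Ω}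
    (hZ : MeasurableSet Z) (hi : ∀ q y, F.τ q y ∈ Z ↔ y ∈ Z) :
    ∫⁻ y in Z, ex F η (fun _ => 1) a a' b b' y ∂M ≤ M Z := by
  have hi' : F.Inv (Z.indicator (1 : Ω → ℝ≥0∞)) := fun q y => by
    by_cases h : y ∈ Z
    · rw [Set.indicator_of_mem h, Set.indicator_of_mem ((hi q y).2 h)]; rfl
    · rw [Set.indicator_of_notMem h, Set.indicator_of_notMem (mt (hi q y).1 h)]
  rw [← lintegral_indicator_one hZ, ← F.lintegral_cv_prob (measurable_one.indicator hZ) (N2 a' b'),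
    ← lintegral_indicator hZ]
  refine lintegral_mono fun y => ?_
  rw [F.cv_inv hi']
  by_cases h : y ∈ Z
  · rw [Set.indicator_of_mem h, Set.indicator_of_mem h, Pi.one_apply, one_mul, ex,
      dep_eq F measurable_const ha hb, ← mP_tl F measurable_const ha hb]
    exact tsub_le_self.trans (dA_le _ _ _)
  · simp [h]

lemma dep_le_ex (η : ℝ≥0) (a a' b b' : ℝ≥0) :
    ∫⁻ y, F.dep (fun _ => 1) a a' b b' y ∂M ≤ ∫⁻ y, ex F η (fun _ => 1) a a' b b' y ∂M + η := by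
  have e : (η : ℝ≥0∞) = ∫⁻ y, η * F.hh a' b' y ∂M := by
    rw [lintegral_const_mul _ (by fun_prop), lintegral_hh, mul_one]
  conv_rhs => rw [e]
  rw [← lintegral_add_left (measurable_ex F η measurable_const a a' b b')]
  exact lintegral_mono fun y => le_tsub_add

variable {F} in
lemma ex_cond {l : ℝ} (hl : 2 ≤ l) {H : Hyp F l} (c : Cond H) {η : ℝ≥0} (hη : η ≠ 0)
    (hη1 : η ≤ 1) (K k : ℕ) {ε : ℝ≥0∞} (hε : ε ≠ 0) : ∀ᶠ i : ℕ in atTop,
      ∫⁻ y, ex F η (fun _ => 1) (kap l ^ i) (kap l ^ (i + K)) (kap l ^ i) (kap l ^ (i + K)) y *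
        c.s k y ∂M ≤ (∫⁻ y, GD F (kap l ^ (i + k)) (kap l ^ (i + k + K)) (kap l ^ (i - k))
          (kap l ^ (i - k + K)) y ∂M) * (η⁻¹ : ℝ≥0) + 5 * (ε + ε) := by
  have hκ := one_lt_kap hl
  have κ0 : kap l ≠ 0 := (zero_lt_one.trans hκ).ne'
  have ht : Tendsto (fun i : ℕ => kap l ^ i) atTop atTop := tendsto_pow_atTop_atTop_of_one_lt hκ
  have s0 : ∀ y, c.s k y ≠ 0 := fun y h => by simpa [h] using c.ge k y
  have s1 : ∀ y, c.s k y ≠ ∞ := fun y => ne_top_of_le_ne_top ENNReal.coe_ne_top (c.le k y)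
  have mono : ∀ i, kap l ^ i ≤ kap l ^ (i + K) := fun i => pow_le_pow_right₀ hκ.le (by omega)
  filter_upwards [F.cv_sub_tendsto (H.Y k).meas_ρ (c.meas k) (H.Y k).ρ_le (c.le k) (c.rel k) ht hε,
    F.cv_sub_tendsto (c.meas k) (H.Y k).meas_ρ (c.le k) (H.Y k).ρ_le (c.rel k).symm ht hε,
    eventually_ge_atTop k] with i h1 h2 h3
  simp_rw [← ex_inv F η (c.inv k) s0 s1]
  refine (ex_stab F hη1 (c.meas k) (H.Y k).meas_ρ (mono i) (mono i) (fun y => ?_) ?_).trans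
    (add_le_add ?_ (mul_le_mul_right (add_le_add h1 h2) _))
  · rw [F.cv_inv (c.inv k)]
    exact mul_ne_zero (s0 y) (F.cv_one_ne_zero _ y)
  · simpa using lintegral_mul_ne_top (M := M) (c.le k) (g := fun _ => 1) (C := 1) fun _ => le_rfl
  · have e1 : ∀ j, kap l ^ k * kap l ^ j = kap l ^ (j + k) := fun j => by
      rw [pow_add, mul_comm]
    have e2 : ∀ j, k ≤ j → (kap l ^ k)⁻¹ * kap l ^ j = kap l ^ (j - k) := fun j hj => by
      rw [pow_sub₀ _ κ0 hj, mul_comm]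
    simp_rw [ex_ρ η (H.Y k)]
    rw [(H.Y k).inv _ (measurable_ex F η measurable_const _ _ _ _), kap_inv, kap_pow, e1, e1,
      e2 _ h3, e2 _ (by omega), add_right_comm i K k, show i + K - k = i - k + K by omega]
    exact ex_one_le F hη hη1 (mono _) (mono _)

theorem ent : EntStmt := by
  rintro Ω _ M _ F l hl ⟨H⟩ K ε hK hε
  obtain ⟨c⟩ := H.cond
  have hκ := one_lt_kap hl
  obtain ⟨δ, δ0, δ1, δε⟩ : ∃ δ : ℝ≥0, δ ≠ 0 ∧ δ ≤ 1 ∧ 3 * (δ : ℝ≥0∞) ≤ ε := by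
    obtain ⟨r, hr, hr'⟩ := ENNReal.exists_nnreal_pos_mul_lt (a := 3) (by simp) hε
    refine ⟨min r 1, (lt_min hr one_pos).ne', min_le_right _ _, le_trans ?_ hr'.le⟩
    rw [mul_comm]
    exact mul_le_mul_left (ENNReal.coe_le_coe.2 (min_le_left _ _)) _
  set B : ℝ≥0 := K * (kap l ^ K + 2) with hB
  set L : ℝ≥0 := (2 * B * δ⁻¹ + 1) * δ⁻¹ with hL
  have L0 : L ≠ 0 := by positivity
  obtain ⟨N, hN⟩ := c.small L δ (by exact_mod_cast δ0)
  obtain ⟨e, e0, e1⟩ := ENNReal.exists_nnreal_pos_mul_lt (a := 10 * N) (b := 1)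
    (ENNReal.mul_ne_top (by simp) (by simp)) one_ne_zero
  obtain ⟨i₀, hi₀⟩ := eventually_atTop.1 ((Finset.eventually_all (Finset.range N)).2 fun k _ =>
    ex_cond hl c δ0 δ1 K k (ε := e) (by exact_mod_cast e0.ne'))
  filter_upwards [eventually_ge_atTop N] with n hn
  filter_upwards [eventually_ge_atTop N, eventually_ge_atTop i₀] with T₀ h1 h2
  have mono : ∀ i, kap l ^ i ≤ kap l ^ (i + K) := fun i => pow_le_pow_right₀ hκ.le (by omega)
  have hZ : MeasurableSet {ω | ∑ k ∈ Finset.range N, c.s k ω < L} :=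
    measurableSet_lt (Finset.measurable_sum _ fun k _ => c.meas k) measurable_const
  let E : ℕ → ℝ≥0∞ := fun T => ∫⁻ y, ex F δ (fun _ => 1) (kap l ^ (T₀ + T)) (kap l ^ (T₀ + T + K))
    (kap l ^ (T₀ + T)) (kap l ^ (T₀ + T + K)) y ∂M
  let D : ℕ → ℕ → ℝ≥0∞ := fun T k => ∫⁻ y, GD F (kap l ^ (T₀ + T + k)) (kap l ^ (T₀ + T + k + K))
    (kap l ^ (T₀ + T - k)) (kap l ^ (T₀ + T - k + K)) y ∂M
  have k1 : ∀ T, L * E T ≤ (∑ k ∈ Finset.range N, D T k) * (δ⁻¹ : ℝ≥0) + (1 + L * δ) := fun T => by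
    refine (c.bound L N (measurable_ex F δ measurable_const _ _ _ _)).trans ?_
    rw [← add_assoc]
    refine add_le_add ((Finset.sum_le_sum fun k hk => hi₀ (T₀ + T) (by omega) k hk).trans ?_)
      (mul_le_mul_right ((setLIntegral_ex_le F δ (mono _) (mono _) hZ fun q y => ?_).trans hN) _)
    · rw [Finset.sum_add_distrib, ← Finset.sum_mul, Finset.sum_const, Finset.card_range,
        nsmul_eq_mul]
      refine add_le_add le_rfl (le_trans (le_of_eq ?_) e1.le)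
      ring
    · simp only [Set.mem_ofPred_eq, c.inv _ q y]
  have k2 : ∑ T ∈ Finset.range n, ∑ k ∈ Finset.range N, D T k ≤ (n + n) * B := by
    refine (GD_sum F hκ hK h1).trans ?_
    rw [hB, ENNReal.coe_mul, ENNReal.coe_natCast]
    gcongr
  have k3 : L * ∑ T ∈ Finset.range n, E T ≤ L * (n * (2 * δ)) := by
    rw [Finset.mul_sum]
    refine (Finset.sum_le_sum fun T _ => k1 T).trans ?_
    rw [Finset.sum_add_distrib, ← Finset.sum_mul, Finset.sum_const, Finset.card_range,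
      nsmul_eq_mul]
    refine (add_le_add (mul_le_mul_left k2 _) le_rfl).trans (le_of_eq ?_)
    have : L * δ = 2 * B * δ⁻¹ + 1 := by rw [hL, mul_assoc, inv_mul_cancel₀ δ0, mul_one]
    have h4 : (L : ℝ≥0∞) * δ = 2 * B * (δ⁻¹ : ℝ≥0) + 1 := by exact_mod_cast this
    calc _ = n * ((2 * B * (δ⁻¹ : ℝ≥0) + 1 : ℝ≥0∞) + L * δ) := by ring
      _ = _ := by rw [← h4]; ring
  have k4 := (ENNReal.mul_le_mul_iff_right (by exact_mod_cast L0) ENNReal.coe_ne_top).1 k3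
  refine (Finset.sum_le_sum fun T _ => dep_le_ex F δ _ _ _ _).trans ?_
  rw [Finset.sum_add_distrib, Finset.sum_const, Finset.card_range, nsmul_eq_mul]
  refine (add_le_add k4 le_rfl).trans (le_trans (le_of_eq ?_) (mul_le_mul_right δε _))
  ring

end Pool.Agent.MP_2b113a_an.H92
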